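import Pool.Agent.helper48.AGR.Spec

set_option autoImplicit false

namespace Pool.Agent.AGR

open Function

theorem T1 (hFT : FT_stmt) (hVGA : VGA_stmt) (hCNT : CNT_stmt) : T1_stmt := by
  intro S
  have hw : S.q.comp S.v = S.p.comp S.v := MonoidHom.ext fun a => (S.hv a).symm
  have hFT' := hFT S.Γ S.X S.v S.p S.q S.hp S.hq S.hv
  have hvq : VG (S.q.comp S.v) := by rw [hw]; exact S.vg
  have hvg := hVGA S.X S.X S.Γ S.q S.p S.v S.hq S.hp hvq S.vg
  rw [hw] at hvg
  let T : Sys :=
    { X := Am S.q S.p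
      Γ := S.X
      cX := hCNT S.X S.X S.Γ S.q S.p
      v := S.p.comp S.v
      p := inl
      q := inr
      hp := inl_injective S.hq S.hp
      hq := inr_injective S.hq S.hp
      hv := fun a => by
        have h1 : (inl (S.q (S.v a)) : Am S.q S.p) = inr (S.p (S.v a)) := glue (S.v a)
        rw [← S.hv a] at h1
        exact h1
      vg := hvg
      e := fun j => inr (S.e j)
      f := fun j => inl (S.f j)
      fe := hFT'.1 ℕ S.e S.fe
      ff := hFT'.2 ℕ S.f S.ff }
  let m : Mor S T :=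
    { j := (inl : S.X →* Am S.q S.p)
      c := S.p
      hj := inl_injective S.hq S.hp
      jp := fun γ => rfl
      jq := fun γ => (glue (f := S.q) (g := S.p) γ).symm
      jv := fun a => rfl }
  exact ⟨T, m, fun x => ⟨x, rfl⟩, fun i => ⟨i, S.e i, rfl, rfl⟩, fun i => ⟨i, rfl⟩⟩

end Pool.Agent.AGR
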